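import Pool.Agent.helper80.SG.Spec2

set_option autoImplicit false
set_option linter.unusedSectionVars false

namespace Pool.Agent.SG

open MvPolynomial Module Pool.Agent.SV

section

variable {τ E P J : Type} [AddCommGroup E] [Module ℂ E] [AddCommGroup P] [Module ℂ P]

open Classical in
/-- all the conditions of a subconfiguration as one linear map -/
noncomputable def UGM_B (Φ : τ → P → E →ₗ[ℂ] (J → ℂ)) (n : ℕ) (S : τ → Finset ℕ) (x : τ → ℕ → P) :
    E →ₗ[ℂ] (τ × Fin n × J → ℂ) where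
  toFun v q := if (q.2.1 : ℕ) ∈ S q.1 then Φ q.1 (x q.1 q.2.1) v q.2.2 else 0
  map_add' v w := by
    funext q
    by_cases h : (q.2.1 : ℕ) ∈ S q.1
    · simp [h]
    · simp [h]
  map_smul' c v := by
    funext q
    by_cases h : (q.2.1 : ℕ) ∈ S q.1
    · simp [h]
    · simp [h]

theorem UGM_ker (Φ : τ → P → E →ₗ[ℂ] (J → ℂ)) (n : ℕ) (S : τ → Finset ℕ)
    (hS : ∀ t, S t ⊆ Finset.range n) (x : τ → ℕ → P) :
    LinearMap.ker (UGM_B Φ n S x) = KerS Φ S x := by
  classical
  ext v
  rw [LinearMap.mem_ker, mem_KerS]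
  constructor
  · intro h t i hi
    funext j
    have h1 := congrFun h (t, ⟨i, Finset.mem_range.1 (hS t hi)⟩, j)
    have h2 : UGM_B Φ n S x v (t, ⟨i, Finset.mem_range.1 (hS t hi)⟩, j) =
        if i ∈ S t then Φ t (x t i) v j else 0 := rfl
    rw [h2, if_pos hi] at h1
    exact h1
  · intro h
    funext q
    have h2 : UGM_B Φ n S x v q =
        if (q.2.1 : ℕ) ∈ S q.1 then Φ q.1 (x q.1 q.2.1) v q.2.2 else 0 := rfl
    rw [h2]
    split_ifs with hq
    · exact congrFun (h q.1 q.2.1 hq) q.2.2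
    · rfl

/-- reindexing -/
theorem UGM_reindex (Φ : τ → P → E →ₗ[ℂ] (J → ℂ)) (S : τ → Finset ℕ) (x x' : τ → ℕ → P)
    (h : ∀ t (i : Fin (S t).card), x' t i = x t ((S t).orderEmbOfFin rfl i)) :
    KerS Φ (fun t => Finset.range (S t).card) x' = KerS Φ S x := by
  ext v
  rw [mem_KerS, mem_KerS]
  constructor
  · intro h1 t i hi
    have h2 : i ∈ Set.range ((S t).orderEmbOfFin rfl) := by
      rw [Finset.range_orderEmbOfFin]
      exact hi
    obtain ⟨k, rfl⟩ := h2
    rw [← h t k]
    exact h1 t k (Finset.mem_range.2 k.2)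
  · intro h1 t i hi
    have hi' : i < (S t).card := Finset.mem_range.1 hi
    have h2 := h t ⟨i, hi'⟩
    simp only at h2
    rw [h2]
    exact h1 t _ (Finset.orderEmbOfFin_mem _ _ _)

theorem UGM_ge (Φ : τ → P → E →ₗ[ℂ] (J → ℂ)) (S : τ → Finset ℕ) (x : τ → ℕ → P) :
    dmM Φ (fun t => (S t).card) ≤ finrank ℂ (KerS Φ S x) := by
  classical
  have h := UGM_reindex Φ S x
    (fun t i => if h : i < (S t).card then x t ((S t).orderEmbOfFin rfl ⟨i, h⟩) else 0)
    (fun t i => by simp)
  rw [← h]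
  exact dmM_le Φ _ _

theorem UGM_ex (Φ : τ → P → E →ₗ[ℂ] (J → ℂ)) (S : τ → Finset ℕ) :
    ∃ x : τ → ℕ → P, finrank ℂ (KerS Φ S x) ≤ dmM Φ (fun t => (S t).card) := by
  classical
  obtain ⟨x₀, hx₀⟩ := exists_dmM Φ (fun t => (S t).card)
  refine ⟨fun t => Function.extend ((S t).orderEmbOfFin rfl) (fun i : Fin (S t).card => x₀ t i) 0, ?_⟩
  have h := UGM_reindex Φ S
    (fun t => Function.extend ((S t).orderEmbOfFin rfl) (fun i : Fin (S t).card => x₀ t i) 0) x₀
    (fun t i => by
      rw [((S t).orderEmbOfFin rfl).injective.extend_apply])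
  rw [← h, hx₀]

end

theorem UGM (hGAL : GAL_stmt) (hGKR : GKR_stmt) : UGM_stmt := by
  intro τ E P J _ _ _ _ _ _ _ _ Φ hΦ n
  classical
  have h1 : ∀ I : τ → Finset (Fin n), Gen (fun x : τ → ℕ → P =>
      finrank ℂ (KerS Φ (fun t => (I t).map Fin.valEmbedding) x) ≤
        dmM Φ (fun t => ((I t).map Fin.valEmbedding).card)) := by
    intro I
    set S : τ → Finset ℕ := fun t => (I t).map Fin.valEmbedding with hS
    have hSn : ∀ t, S t ⊆ Finset.range n := by
      intro t i hi
      rw [hS] at hi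
      simp only [Finset.mem_map, Fin.valEmbedding_apply] at hi
      obtain ⟨k, -, rfl⟩ := hi
      exact Finset.mem_range.2 k.2
    have h2 := hGKR (fun x : τ → ℕ → P => UGM_B Φ n S x) (fun Z₀ Z₁ v q => by
      by_cases hq : (q.2.1 : ℕ) ∈ S q.1
      · obtain ⟨p, hp⟩ := hΦ q.1 (Z₀ q.1 q.2.1) (Z₁ q.1 q.2.1) v q.2.2
        refine ⟨p, fun t => ?_⟩
        rw [← hp t]
        change (if (q.2.1 : ℕ) ∈ S q.1 then _ else _) = _
        rw [if_pos hq]
        rfl
      · refine ⟨0, fun t => ?_⟩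
        change (if (q.2.1 : ℕ) ∈ S q.1 then _ else _) = _
        rw [if_neg hq]
        simp) (dmM Φ (fun t => (S t).card)) (by
      obtain ⟨x, hx⟩ := UGM_ex Φ S
      refine ⟨x, ?_⟩
      rw [UGM_ker Φ n S hSn]
      exact hx)
    have h4 : (fun Z => finrank ℂ (LinearMap.ker (UGM_B Φ n S Z)) ≤ dmM Φ (fun t => (S t).card)) =
        fun Z : τ → ℕ → P => finrank ℂ (KerS Φ S Z) ≤ dmM Φ (fun t => (S t).card) := by
      funext Z
      rw [UGM_ker Φ n S hSn]
    rw [h4] at h2
    exact h2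
  have h2 := hGAL _ h1
  have h3 : (fun x : τ → ℕ → P => UniM Φ n x) = fun x => ∀ I : τ → Finset (Fin n),
      finrank ℂ (KerS Φ (fun t => (I t).map Fin.valEmbedding) x) ≤
        dmM Φ (fun t => ((I t).map Fin.valEmbedding).card) := by
    funext x
    refine propext ⟨fun h I => (h _ ?_).le, fun h S hS => ?_⟩
    · intro t i hi
      simp only [Finset.mem_map, Fin.valEmbedding_apply] at hi
      obtain ⟨k, -, rfl⟩ := hi
      exact Finset.mem_range.2 k.2
    · have h5 : (fun t => (Finset.univ.filter (fun i : Fin n => (i : ℕ) ∈ S t)).map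
          Fin.valEmbedding) = S := by
        funext t
        ext i
        simp only [Finset.mem_map, Finset.mem_filter, Finset.mem_univ, true_and,
          Fin.valEmbedding_apply]
        constructor
        · rintro ⟨k, hk, rfl⟩
          exact hk
        · intro hi
          exact ⟨⟨i, Finset.mem_range.1 (hS t hi)⟩, hi, rfl⟩
      have h6 := h (fun t => Finset.univ.filter (fun i : Fin n => (i : ℕ) ∈ S t))
      rw [h5] at h6
      have h7 : (fun t => ((Finset.univ.filter (fun i : Fin n => (i : ℕ) ∈ S t)).map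
          Fin.valEmbedding).card) = fun t => (S t).card := by
        funext t
        exact congrArg Finset.card (congrFun h5 t)
      rw [h7] at h6
      exact le_antisymm h6 (UGM_ge Φ S x)
  rw [h3]
  exact h2

end Pool.Agent.SG
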